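import Pool.Agent.Helper70.Matching.Specs4

/-! Packet M-C9 of MP_fb8750_pr: the asymptotics of the parameters. -/

set_option autoImplicit false
open Finset Filter Topology

namespace Pool.Agent.Helper77.Matching

open Pool.Agent.Helper70.Matching

theorem pow4_le_factorial : ∀ n : ℕ, 8 ≤ n → n ^ 4 ≤ n.factorial := by
  intro n hn
  induction n, hn using Nat.le_induction with
  | base => decide
  | succ n hn ih =>
    rw [Nat.factorial_succ]
    have h1 : (n + 1) ^ 3 ≤ n ^ 4 := by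
      calc (n + 1) ^ 3 ≤ (2 * n) ^ 3 := Nat.pow_le_pow_left (by omega) 3
        _ = 8 * n ^ 3 := by ring
        _ ≤ n * n ^ 3 := Nat.mul_le_mul_right _ hn
        _ = n ^ 4 := by ring
    calc (n + 1) ^ 4 = (n + 1) * (n + 1) ^ 3 := by ring
      _ ≤ (n + 1) * n.factorial := Nat.mul_le_mul_left _ (h1.trans ih)

/-- the basic facts -/
theorem basic : ∀ᶠ n : ℕ in atTop,
    (1 : ℝ) ≤ n ∧ 8 ≤ n ∧ (2 : ℝ) ≤ (n : ℝ) ^ ((1 : ℝ) / 40) ∧
    (Bn n : ℝ) ≤ (n : ℝ) ^ ((19 : ℝ) / 40) ∧ (n : ℝ) ^ ((19 : ℝ) / 40) / 2 ≤ Bn n ∧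
    0 < Bn n ∧ (2 : ℝ) * Bn n ≤ Real.sqrt n := by
  have hcast : Tendsto (fun n : ℕ => (n : ℝ)) atTop atTop := tendsto_natCast_atTop_atTop
  have t1 : Tendsto (fun n : ℕ => (n : ℝ) ^ ((19 : ℝ) / 40)) atTop atTop :=
    (tendsto_rpow_atTop (by norm_num)).comp hcast
  have t2 : Tendsto (fun n : ℕ => (n : ℝ) ^ ((1 : ℝ) / 40)) atTop atTop :=
    (tendsto_rpow_atTop (by norm_num)).comp hcast
  filter_upwards [eventually_ge_atTop 8, t1.eventually_ge_atTop 2, t2.eventually_ge_atTop 2]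
    with n h8 hX hY
  have h1 : (1 : ℝ) ≤ n := by exact_mod_cast (le_trans (by norm_num) h8)
  have h0 : (0 : ℝ) < n := by linarith
  have hB1 : (Bn n : ℝ) ≤ (n : ℝ) ^ ((19 : ℝ) / 40) := Nat.floor_le (by positivity)
  have hB2 : (n : ℝ) ^ ((19 : ℝ) / 40) < Bn n + 1 := Nat.lt_floor_add_one _
  have hsq : Real.sqrt n = (n : ℝ) ^ ((19 : ℝ) / 40) * (n : ℝ) ^ ((1 : ℝ) / 40) := by
    rw [← Real.rpow_add h0, Real.sqrt_eq_rpow]
    norm_num
  refine ⟨h1, h8, hY, hB1, by linarith, ?_, ?_⟩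
  · have : (0 : ℝ) < Bn n := by linarith
    exact_mod_cast this
  · rw [hsq]
    nlinarith

theorem asymp : Spec_asymp := by
  have hcast : Tendsto (fun n : ℕ => (n : ℝ)) atTop atTop := tendsto_natCast_atTop_atTop
  have t1 : Tendsto (fun n : ℕ => (n : ℝ) ^ ((19 : ℝ) / 40)) atTop atTop :=
    (tendsto_rpow_atTop (by norm_num)).comp hcast
  have t2 : Tendsto (fun n : ℕ => (n : ℝ) ^ ((1 : ℝ) / 40)) atTop atTop :=
    (tendsto_rpow_atTop (by norm_num)).comp hcast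
  -- the second group of facts
  have main : ∀ᶠ n : ℕ in atTop,
      (1 ≤ ((n.factorial : ℕ) : ℝ) * hn n ∧ ((n.factorial : ℕ) : ℝ) * hn n ≤ 2) ∧
      (0 < hn n ∧ hn n ^ 2 ≤ 1 / 2 ∧ 0 < NN n ∧ (NN n : ℝ) * hn n = Real.sqrt n ∧
      (Bn n : ℝ) * rr n = Real.sqrt n ∧ 0 < Bn n ∧ 0 < kn n ∧ n ^ 4 ≤ NN n ∧
      (n : ℝ) / 4 ≤ ((Bn n * kn n : ℕ) : ℝ) ^ 2 ∧ ((Bn n * kn n : ℕ) : ℝ) ^ 2 ≤ n) := by
    filter_upwards [basic] with n hb
    obtain ⟨h1, h8, hY, hB1, hB2, hB0, hBs⟩ := hb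
    have h0 : (0 : ℝ) < n := by linarith
    have hs0 : 0 < Real.sqrt n := Real.sqrt_pos.2 h0
    have hss : Real.sqrt n ^ 2 = n := Real.sq_sqrt h0.le
    have hB0' : (0 : ℝ) < Bn n := by exact_mod_cast hB0
    have hk1 : (kn n : ℝ) ≤ Real.sqrt n / Bn n := Nat.floor_le (by positivity)
    have hk2 : Real.sqrt n / Bn n < kn n + 1 := Nat.lt_floor_add_one _
    have hBk1 : (Bn n : ℝ) * kn n ≤ Real.sqrt n := by
      calc (Bn n : ℝ) * kn n ≤ Bn n * (Real.sqrt n / Bn n) := mul_le_mul_of_nonneg_left hk1 hB0'.le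
        _ = Real.sqrt n := by field_simp
    have hBk2 : Real.sqrt n ≤ Bn n * kn n + Bn n := by
      have : Bn n * (Real.sqrt n / Bn n) ≤ Bn n * ((kn n : ℝ) + 1) :=
        mul_le_mul_of_nonneg_left hk2.le hB0'.le
      have h2 : (Bn n : ℝ) * (Real.sqrt n / Bn n) = Real.sqrt n := by field_simp
      linarith
    have hBk3 : Real.sqrt n / 2 ≤ Bn n * kn n := by linarith
    have hk0 : 0 < kn n := by
      rcases Nat.eq_zero_or_pos (kn n) with h | h
      · rw [h] at hBk3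
        simp only [Nat.cast_zero, mul_zero] at hBk3
        linarith
      · exact h
    have hk0' : (0 : ℝ) < kn n := by exact_mod_cast hk0
    have hf0 : (0 : ℝ) < (n.factorial : ℕ) := by exact_mod_cast n.factorial_pos
    have hNN : (NN n : ℝ) = Bn n * kn n * (n.factorial : ℕ) := by
      simp only [NN, rsn]; push_cast; ring
    have hNN0 : (0 : ℝ) < NN n := by rw [hNN]; positivity
    have hNh : (NN n : ℝ) * hn n = Real.sqrt n := by
      unfold Pool.Agent.Helper70.Matching.hn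
      field_simp
    have hfh : ((n.factorial : ℕ) : ℝ) * hn n = Real.sqrt n / (Bn n * kn n) := by
      rw [eq_div_iff (by positivity), ← hNh, hNN]
      ring
    have h4 : n ^ 4 ≤ NN n := by
      refine (pow4_le_factorial n h8).trans ?_
      have : n.factorial ≤ (Bn n * kn n) * n.factorial :=
        Nat.le_mul_of_pos_left _ (Nat.mul_pos hB0 hk0)
      calc n.factorial ≤ (Bn n * kn n) * n.factorial := this
        _ = NN n := by simp only [NN, rsn]; ring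
    refine ⟨⟨?_, ?_⟩, ?_, ?_, ?_, hNh, ?_, hB0, hk0, h4, ?_, ?_⟩
    · rw [hfh, le_div_iff₀ (by positivity), one_mul]; exact hBk1
    · rw [hfh, div_le_iff₀ (by positivity)]; linarith
    · exact div_pos hs0 hNN0
    · have h5 : ((n : ℝ)) ^ 4 ≤ NN n := by exact_mod_cast h4
      have h6 : hn n ^ 2 = n / (NN n : ℝ) ^ 2 := by
        unfold Pool.Agent.Helper70.Matching.hn
        rw [div_pow, hss]
      rw [h6, div_le_iff₀ (by positivity)]
      have h7 : ((n : ℝ) ^ 4) ^ 2 ≤ (NN n : ℝ) ^ 2 := pow_le_pow_left₀ (by positivity) h5 2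
      have h9 : (8 : ℝ) ≤ n := by exact_mod_cast h8
      have h10 : 2 * (n : ℝ) ≤ ((n : ℝ) ^ 4) ^ 2 := by
        have h11 : (1 : ℝ) ≤ (n : ℝ) ^ 6 := one_le_pow₀ h1
        calc 2 * (n : ℝ) ≤ n * n := by nlinarith
          _ = 1 * (n * n) := by ring
          _ ≤ (n : ℝ) ^ 6 * (n * n) := mul_le_mul_of_nonneg_right h11 (by positivity)
          _ = ((n : ℝ) ^ 4) ^ 2 := by ring
      linarith
    · exact_mod_cast hNN0
    · rw [← hNh]
      simp only [rr, NN]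
      push_cast
      ring
    · push_cast
      calc (n : ℝ) / 4 = (Real.sqrt n / 2) ^ 2 := by rw [div_pow, hss]; norm_num
        _ ≤ (Bn n * kn n) ^ 2 := pow_le_pow_left₀ (by positivity) hBk3 2
    · push_cast
      calc ((Bn n : ℝ) * kn n) ^ 2 ≤ Real.sqrt n ^ 2 := pow_le_pow_left₀ (by positivity) hBk1 2
        _ = n := hss
  -- bounds of rr
  have hrr : ∀ᶠ n : ℕ in atTop, (n : ℝ) ^ ((1 : ℝ) / 40) ≤ rr n ∧
      rr n ≤ 2 * (n : ℝ) ^ ((1 : ℝ) / 40) := by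
    filter_upwards [basic, main] with n hb hm
    obtain ⟨h1, h8, hY, hB1, hB2, hB0, hBs⟩ := hb
    have hBr := hm.2.2.2.2.2.1
    have h0 : (0 : ℝ) < n := by linarith
    have hB0' : (0 : ℝ) < Bn n := by exact_mod_cast hB0
    have hsq : Real.sqrt n = (n : ℝ) ^ ((19 : ℝ) / 40) * (n : ℝ) ^ ((1 : ℝ) / 40) := by
      rw [← Real.rpow_add h0, Real.sqrt_eq_rpow]
      norm_num
    have hY0 : 0 < (n : ℝ) ^ ((1 : ℝ) / 40) := Real.rpow_pos_of_pos h0 _
    constructor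
    · have : (Bn n : ℝ) * (n : ℝ) ^ ((1 : ℝ) / 40) ≤ Bn n * rr n := by
        rw [hBr, hsq]
        exact mul_le_mul_of_nonneg_right hB1 hY0.le
      exact le_of_mul_le_mul_left this hB0'
    · have : (Bn n : ℝ) * rr n ≤ Bn n * (2 * (n : ℝ) ^ ((1 : ℝ) / 40)) := by
        rw [hBr, hsq]
        nlinarith
      exact le_of_mul_le_mul_left this hB0'
  refine ⟨?_, ?_, ?_, ?_, ?_, ?_⟩
  · exact tendsto_nat_floor_atTop.comp t1
  · exact tendsto_atTop_mono' _ (hrr.mono fun n h => h.1) t2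
  · -- rr ^ 9 / Bn
    have t3 : Tendsto (fun n : ℕ => (1024 : ℝ) * (n : ℝ) ^ (-((1 : ℝ) / 4))) atTop (𝓝 0) := by
      have := ((tendsto_rpow_neg_atTop (show (0 : ℝ) < 1 / 4 by norm_num)).comp hcast).const_mul 1024
      simpa using this
    refine squeeze_zero' ?_ ?_ t3
    · filter_upwards [basic, hrr] with n hb hr
      have h1 : (0 : ℝ) ≤ (n : ℝ) ^ ((1 : ℝ) / 40) := by positivity
      have h2 : 0 ≤ rr n := h1.trans hr.1
      positivity
    · filter_upwards [basic, hrr] with n hb hr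
      obtain ⟨h1, h8, hY, hB1, hB2, hB0, hBs⟩ := hb
      have h0 : (0 : ℝ) < n := by linarith
      have hB0' : (0 : ℝ) < Bn n := by exact_mod_cast hB0
      have hX0 : 0 < (n : ℝ) ^ ((19 : ℝ) / 40) := Real.rpow_pos_of_pos h0 _
      have hr0 : 0 ≤ rr n := le_trans (by positivity) hr.1
      have e1 : rr n ^ 9 ≤ (2 * (n : ℝ) ^ ((1 : ℝ) / 40)) ^ 9 := pow_le_pow_left₀ hr0 hr.2 9
      have e2 : (2 * (n : ℝ) ^ ((1 : ℝ) / 40)) ^ 9 = 512 * (n : ℝ) ^ ((9 : ℝ) / 40) := by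
        rw [mul_pow, ← Real.rpow_natCast ((n : ℝ) ^ ((1 : ℝ) / 40)) 9, ← Real.rpow_mul h0.le]
        norm_num
      have e3 : (n : ℝ) ^ ((9 : ℝ) / 40) = (n : ℝ) ^ (-((1 : ℝ) / 4)) * (n : ℝ) ^ ((19 : ℝ) / 40) := by
        rw [← Real.rpow_add h0]
        norm_num
      rw [div_le_iff₀ hB0']
      calc rr n ^ 9 ≤ 512 * (n : ℝ) ^ ((9 : ℝ) / 40) := by rw [← e2]; exact e1
        _ = 1024 * (n : ℝ) ^ (-((1 : ℝ) / 4)) * ((n : ℝ) ^ ((19 : ℝ) / 40) / 2) := by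
          rw [e3]; ring
        _ ≤ 1024 * (n : ℝ) ^ (-((1 : ℝ) / 4)) * Bn n := by gcongr
  · intro c hc
    have t4 : Tendsto (fun n : ℕ => (n : ℝ) ^ ((1 : ℝ) / 20)) atTop atTop :=
      (tendsto_rpow_atTop (by norm_num)).comp hcast
    have t5 := (tendsto_rpow_mul_exp_neg_mul_atTop_nhds_zero 20 c hc).comp t4
    refine squeeze_zero' (Eventually.of_forall fun n => by positivity) ?_ t5
    filter_upwards [basic, hrr] with n hb hr
    obtain ⟨h1, h8, hY, hB1, hB2, hB0, hBs⟩ := hb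
    have h0 : (0 : ℝ) < n := by linarith
    have e1 : (n : ℝ) ^ ((1 : ℝ) / 20) ≤ rr n ^ 2 := by
      have : ((n : ℝ) ^ ((1 : ℝ) / 40)) ^ 2 = (n : ℝ) ^ ((1 : ℝ) / 20) := by
        rw [← Real.rpow_natCast ((n : ℝ) ^ ((1 : ℝ) / 40)) 2, ← Real.rpow_mul h0.le]
        norm_num
      rw [← this]
      exact pow_le_pow_left₀ (by positivity) hr.1 2
    have e2 : ((n : ℝ) ^ ((1 : ℝ) / 20)) ^ (20 : ℝ) = n := by
      rw [← Real.rpow_mul h0.le]
      norm_num
    simp only [Function.comp]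
    rw [e2]
    apply mul_le_mul_of_nonneg_left _ h0.le
    apply Real.exp_le_exp.2
    nlinarith
  · exact main.mono fun n h => h.1
  · exact main.mono fun n h => h.2

end Pool.Agent.Helper77.Matching
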