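import Pool.Agent.Helper70.Matching.Specs3

/-! Packet M-C2b of MP_fb8750_pr: the hierarchical oscillation bound. -/

set_option autoImplicit false
open Finset Filter Topology

namespace Pool.Agent.Helper77.Matching

open Pool.Agent.Helper70.Matching

theorem hier (m J B : ℕ) (hm : 2 ≤ m) :
    Hier (fun (i : ℕ) (k : Fin (B * m ^ J) × Fin (B * m ^ J)) =>
      (((k.1 : ℕ) / m ^ i, (k.2 : ℕ) / m ^ i) : ℕ × ℕ)) m J where
  inj := by
    intro k k' hk
    simp only [pow_zero, Nat.div_one, Prod.mk.injEq] at hk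
    exact Prod.ext (Fin.ext hk.1) (Fin.ext hk.2)
  refine := by
    intro i _ k k' hk
    simp only [Prod.mk.injEq] at hk ⊢
    rw [pow_succ, ← Nat.div_div_eq_div_mul, ← Nat.div_div_eq_div_mul, ← Nat.div_div_eq_div_mul,
      ← Nat.div_div_eq_div_mul, hk.1, hk.2]
    exact ⟨rfl, rfl⟩
  child := by
    intro i _ k
    have hm0 : 0 < m := by omega
    have hsub : ((univ.filter (fun k' : Fin (B * m ^ J) × Fin (B * m ^ J) =>
        (((k'.1 : ℕ) / m ^ (i + 1), (k'.2 : ℕ) / m ^ (i + 1)) : ℕ × ℕ)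
          = (((k.1 : ℕ) / m ^ (i + 1), (k.2 : ℕ) / m ^ (i + 1)) : ℕ × ℕ))).image
        (fun k' : Fin (B * m ^ J) × Fin (B * m ^ J) =>
          (((k'.1 : ℕ) / m ^ i, (k'.2 : ℕ) / m ^ i) : ℕ × ℕ)))
        ⊆ (Ico (m * ((k.1 : ℕ) / m ^ (i + 1))) (m * ((k.1 : ℕ) / m ^ (i + 1)) + m)) ×ˢ
          (Ico (m * ((k.2 : ℕ) / m ^ (i + 1))) (m * ((k.2 : ℕ) / m ^ (i + 1)) + m)) := by
      intro y hy
      simp only [mem_image, mem_filter, mem_univ, true_and, Prod.mk.injEq] at hy
      obtain ⟨k', ⟨h1, h2⟩, rfl⟩ := hy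
      have key : ∀ a b : ℕ, a / m ^ (i + 1) = b →
          m * b ≤ a / m ^ i ∧ a / m ^ i < m * b + m := by
        intro a b hab
        rw [pow_succ, ← Nat.div_div_eq_div_mul] at hab
        constructor
        · rw [← hab]; exact Nat.mul_div_le _ _
        · rw [← hab]; exact Nat.lt_mul_div_succ _ hm0
      simp only [mem_product, mem_Ico]
      exact ⟨key _ _ h1, key _ _ h2⟩
    refine (card_le_card hsub).trans ?_
    rw [card_product, Nat.card_Ico, Nat.card_Ico]
    simp only [add_tsub_cancel_left]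
    rw [pow_two]
  count := by
    intro i hi
    have hm0 : 0 < m := by omega
    have hJ : m ^ J = m ^ (J - i) * m ^ i := by rw [← pow_add]; congr 1; omega
    have hsub : (univ.image (fun k : Fin (B * m ^ J) × Fin (B * m ^ J) =>
        (((k.1 : ℕ) / m ^ i, (k.2 : ℕ) / m ^ i) : ℕ × ℕ)))
        ⊆ range (B * m ^ (J - i)) ×ˢ range (B * m ^ (J - i)) := by
      intro y hy
      simp only [mem_image, mem_univ, true_and] at hy
      obtain ⟨k, rfl⟩ := hy
      have key : ∀ a : ℕ, a < B * m ^ J → a / m ^ i < B * m ^ (J - i) := by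
        intro a ha
        apply Nat.div_lt_of_lt_mul
        calc a < B * m ^ J := ha
          _ = m ^ i * (B * m ^ (J - i)) := by rw [hJ]; ring
      simp only [mem_product, mem_range]
      exact ⟨key _ k.1.2, key _ k.2.2⟩
    have hc := card_le_card hsub
    rw [card_product, card_range] at hc
    calc _ ≤ (B * m ^ (J - i) * (B * m ^ (J - i))) * m ^ (2 * i) := Nat.mul_le_mul_right _ hc
      _ = (B * m ^ J) * (B * m ^ J) := by rw [hJ]; ring
      _ = _ := by rw [Fintype.card_prod, Fintype.card_fin]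

theorem abs_osc (h1 : Spec_osc) {Fn : Set ℂ → Multiset ℂ → ℝ} {C : ℝ} (hF : Good Fn C)
    {N B rs : ℕ} {h Λ : ℝ} (hN : N = B * rs) (hh : 0 < h)
    (D₁ D₂ : NBox) (j₁ j₂ : Fin B × Fin B) (ok1 : D₁.ok) (ok2 : D₂.ok)
    (sub1 : D₁.sub (blk rs j₁)) (sub2 : D₂.sub (blk rs j₂))
    (hdis : D₁.x1 ≤ D₂.x0 ∨ D₂.x1 ≤ D₁.x0 ∨ D₁.y1 ≤ D₂.y0 ∨ D₂.y1 ≤ D₁.y0)
    (hz : j₁ = j₂ ∨ ∃ z, z ∈ (D₁.rect h).bd ∧ z ∈ (D₂.rect h).bd ∧
      z ∈ ((blk rs j₁).rect h).bd ∧ z ∈ ((blk rs j₂).rect h).bd)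
    (s1 : (D₁.rect h).size ≤ Λ) (s2 : (D₂.rect h).size ≤ Λ)
    (hd : ∀ x ∈ (D₁.rect h).bd ∪ (D₂.rect h).bd, ∀ y ∈ (D₁.rect h).bd ∪ (D₂.rect h).bd,
      dist x y ≤ Λ)
    (ω ω' : Site N → Bool) (hag : ∀ v, v ∉ D₁.sites N → v ∉ D₂.sites N → ω v = ω' v)
    (e1 : Even (Nw ω)) (e2 : Even (Nw ω')) :
    |Gw Fn h rs B ω - Gw Fn h rs B ω'| ≤ 7 * C * Λ := by
  have a1 := h1 Fn C hF N B rs h Λ hN hh D₁ D₂ j₁ j₂ ok1 ok2 sub1 sub2 hdis hz s1 s2 hd ω ω' hag
    e1 e2
  have a2 := h1 Fn C hF N B rs h Λ hN hh D₁ D₂ j₁ j₂ ok1 ok2 sub1 sub2 hdis hz s1 s2 hd ω' ω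
    (fun v hv hv' => (hag v hv hv').symm) e2 e1
  rw [abs_le]
  constructor <;> linarith

theorem one_dim (t s q c : ℕ) (ht : 0 < t) :
    (c / t) * (t * s * q) ≤ (c * s) * q ∧ (c * s + s) * q ≤ (c / t + 1) * (t * s * q) := by
  have h1 : c / t * t ≤ c := Nat.div_mul_le_self c t
  have h2 : c + 1 ≤ (c / t + 1) * t := by
    have := Nat.lt_mul_div_succ c ht
    rw [mul_comm (c / t + 1) t]; exact this
  constructor
  · calc (c / t) * (t * s * q) = (c / t * t) * (s * q) := by ring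
      _ ≤ c * (s * q) := Nat.mul_le_mul_right _ h1
      _ = (c * s) * q := by ring
  · calc (c * s + s) * q = (c + 1) * (s * q) := by ring
      _ ≤ ((c / t + 1) * t) * (s * q) := Nat.mul_le_mul_right _ h2
      _ = (c / t + 1) * (t * s * q) := by ring

theorem one_dim_prev (t s q c : ℕ) (ht : 0 < t) (hs : 0 < s) (hc : 0 < c) :
    ∃ d, d ≤ c / t ∧ d * (t * s * q) ≤ (c * s - 1) * q ∧ (c * s) * q ≤ (d + 1) * (t * s * q) ∧
      (d = c / t ∨ (d + 1 = c / t ∧ (c * s) * q = (d + 1) * (t * s * q))) := by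
  by_cases hdvd : t ∣ c
  · obtain ⟨e, rfl⟩ := hdvd
    have he : 0 < e := Nat.pos_of_mul_pos_left hc
    have hdiv : t * e / t = e := Nat.mul_div_cancel_left e ht
    obtain ⟨d, rfl⟩ : ∃ d, e = d + 1 := ⟨e - 1, by omega⟩
    refine ⟨d, by rw [hdiv]; omega, ?_, ?_, Or.inr ⟨hdiv.symm, by ring⟩⟩
    · calc d * (t * s * q) = (d * (t * s)) * q := by ring
        _ ≤ (t * (d + 1) * s - 1) * q := by
          apply Nat.mul_le_mul_right
          have h1 : 0 < t * s := Nat.mul_pos ht hs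
          have h2 : t * (d + 1) * s = d * (t * s) + t * s := by ring
          omega
    · exact le_of_eq (by ring)
  · refine ⟨c / t, le_refl _, ?_, ?_, Or.inl rfl⟩
    · have h1 : c / t * t + 1 ≤ c := by
        have h2 : c / t * t ≤ c := Nat.div_mul_le_self c t
        have h3 : c / t * t ≠ c := fun h => hdvd ⟨c / t, by rw [mul_comm]; exact h.symm⟩
        omega
      calc (c / t) * (t * s * q) = (c / t * t * s) * q := by ring
        _ ≤ (c * s - 1) * q := by
          apply Nat.mul_le_mul_right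
          have h4 : (c / t * t + 1) * s ≤ c * s := Nat.mul_le_mul_right _ h1
          have h5 : (c / t * t + 1) * s = c / t * t * s + s := by ring
          omega
    · refine le_trans ?_ (one_dim t s q c ht).2
      apply Nat.mul_le_mul_right
      omega

theorem mem_bd (D : NBox) (h : ℝ) (hh : 0 < h) (X Y : ℕ) (h1 : D.x0 ≤ X) (h2 : X ≤ D.x1)
    (h3 : D.y0 ≤ Y) (h4 : Y ≤ D.y1) (h5 : X = D.x0 ∨ X = D.x1 ∨ Y = D.y0 ∨ Y = D.y1) :
    (⟨(X : ℝ) * h, (Y : ℝ) * h⟩ : ℂ) ∈ (D.rect h).bd := by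
  have c1 : (D.x0 : ℝ) ≤ X := by exact_mod_cast h1
  have c2 : (X : ℝ) ≤ D.x1 := by exact_mod_cast h2
  have c3 : (D.y0 : ℝ) ≤ Y := by exact_mod_cast h3
  have c4 : (Y : ℝ) ≤ D.y1 := by exact_mod_cast h4
  refine ⟨mul_le_mul_of_nonneg_right c1 hh.le, mul_le_mul_of_nonneg_right c2 hh.le,
    mul_le_mul_of_nonneg_right c3 hh.le, mul_le_mul_of_nonneg_right c4 hh.le, ?_⟩
  rcases h5 with rfl | rfl | rfl | rfl
  · exact Or.inl rfl
  · exact Or.inr (Or.inl rfl)
  · exact Or.inr (Or.inr (Or.inl rfl))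
  · exact Or.inr (Or.inr (Or.inr rfl))

theorem bd_bounds (D : NBox) (h : ℝ) (hh : 0 < h) (X0 X1 Y0 Y1 : ℝ) (h1 : X0 ≤ D.x0)
    (h2 : (D.x1 : ℝ) ≤ X1) (h3 : Y0 ≤ D.y0) (h4 : (D.y1 : ℝ) ≤ Y1) (z : ℂ)
    (hz : z ∈ (D.rect h).bd) :
    X0 * h ≤ z.re ∧ z.re ≤ X1 * h ∧ Y0 * h ≤ z.im ∧ z.im ≤ Y1 * h := by
  obtain ⟨a1, a2, a3, a4, -⟩ := hz
  simp only [NBox.rect] at a1 a2 a3 a4
  exact ⟨(mul_le_mul_of_nonneg_right h1 hh.le).trans a1,
    a2.trans (mul_le_mul_of_nonneg_right h2 hh.le),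
    (mul_le_mul_of_nonneg_right h3 hh.le).trans a3,
    a4.trans (mul_le_mul_of_nonneg_right h4 hh.le)⟩

theorem dist_bd (D₁ D₂ : NBox) (h : ℝ) (hh : 0 < h) (X0 X1 Y0 Y1 : ℝ)
    (h1 : X0 ≤ D₁.x0) (h2 : (D₁.x1 : ℝ) ≤ X1) (h3 : Y0 ≤ D₁.y0) (h4 : (D₁.y1 : ℝ) ≤ Y1)
    (g1 : X0 ≤ D₂.x0) (g2 : (D₂.x1 : ℝ) ≤ X1) (g3 : Y0 ≤ D₂.y0) (g4 : (D₂.y1 : ℝ) ≤ Y1)
    (Λ : ℝ) (hΛ : ((X1 - X0) + (Y1 - Y0)) * h ≤ Λ) :
    ∀ x ∈ (D₁.rect h).bd ∪ (D₂.rect h).bd, ∀ y ∈ (D₁.rect h).bd ∪ (D₂.rect h).bd,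
      dist x y ≤ Λ := by
  have key : ∀ z ∈ (D₁.rect h).bd ∪ (D₂.rect h).bd,
      X0 * h ≤ z.re ∧ z.re ≤ X1 * h ∧ Y0 * h ≤ z.im ∧ z.im ≤ Y1 * h := by
    rintro z (hz | hz)
    · exact bd_bounds D₁ h hh X0 X1 Y0 Y1 h1 h2 h3 h4 z hz
    · exact bd_bounds D₂ h hh X0 X1 Y0 Y1 g1 g2 g3 g4 z hz
  intro x hx y hy
  obtain ⟨a1, a2, a3, a4⟩ := key x hx
  obtain ⟨b1, b2, b3, b4⟩ := key y hy
  rw [dist_eq_norm]
  refine (Complex.norm_le_abs_re_add_abs_im _).trans (le_trans ?_ hΛ)
  rw [Complex.sub_re, Complex.sub_im]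
  have e1 : |x.re - y.re| ≤ (X1 - X0) * h := by
    rw [abs_le]; constructor <;> linarith
  have e2 : |x.im - y.im| ≤ (Y1 - Y0) * h := by
    rw [abs_le]; constructor <;> linarith
  linarith

theorem oscG (h1 : Spec_osc) (h2 : Spec_glue) : Spec_oscG := by
  intro Fn C hF m J B q N h hN hm hq hh
  refine ⟨hier m J B hm, ?_⟩
  intro i hi c U U' hU
  have hm0 : 0 < m := by omega
  have hC : 0 ≤ C := le_trans zero_le_one hF.one_le
  by_cases hex : ∃ k : Fin (B * m ^ J) × Fin (B * m ^ J),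
      (((k.1 : ℕ) / m ^ i, (k.2 : ℕ) / m ^ i) : ℕ × ℕ) = c
  swap
  · have hUU : U = U' := by
      funext k
      apply hU
      intro hk
      exact hex ⟨k, hk⟩
    rw [hUU, sub_self, abs_zero]
    positivity
  obtain ⟨k, hk⟩ := hex
  set s : ℕ := m ^ i with hs
  set t : ℕ := m ^ (J - i) with ht
  have hs0 : 0 < s := pow_pos hm0 i
  have ht0 : 0 < t := pow_pos hm0 _
  have hts : m ^ J = t * s := by rw [ht, hs, ← pow_add]; congr 1; omega
  obtain ⟨c1, c2⟩ := c
  simp only [Prod.mk.injEq] at hk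
  have hc1 : c1 < B * t := by
    rw [← hk.1]
    apply Nat.div_lt_of_lt_mul
    calc (k.1 : ℕ) < B * m ^ J := k.1.2
      _ = s * (B * t) := by rw [hts]; ring
  have hc2 : c2 < B * t := by
    rw [← hk.2]
    apply Nat.div_lt_of_lt_mul
    calc (k.2 : ℕ) < B * m ^ J := k.2.2
      _ = s * (B * t) := by rw [hts]; ring
  have hrs : m ^ J * q = t * s * q := by rw [hts]
  have hN' : N = B * (m ^ J * q) := by rw [hN]; ring
  obtain ⟨hev, hglue⟩ := h2 N (B * m ^ J) q hN hq
  have hag := hglue (c1 * s) (c2 * s) s hs0 U U' (by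
    intro k' hk'
    apply hU
    intro hk2
    apply hk'
    simp only [Prod.mk.injEq] at hk2
    obtain ⟨e1, e2⟩ := hk2
    have key : ∀ a b : ℕ, a / s = b → b * s ≤ a ∧ a < b * s + s := by
      intro a b hab
      subst hab
      constructor
      · exact Nat.div_mul_le_self _ _
      · have := Nat.lt_mul_div_succ a hs0
        calc a < s * (a / s + 1) := this
          _ = a / s * s + s := by ring
    exact ⟨(key _ _ e1).1, (key _ _ e1).2, (key _ _ e2).1, (key _ _ e2).2⟩)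
  have hj1 : c1 / t < B := by
    apply Nat.div_lt_of_lt_mul
    rw [mul_comm]; exact hc1
  have hj2 : c2 / t < B := by
    apply Nat.div_lt_of_lt_mul
    rw [mul_comm]; exact hc2
  set j₁ : Fin B × Fin B := (⟨c1 / t, hj1⟩, ⟨c2 / t, hj2⟩) with hj₁
  set D₁ : NBox := NBox.mk (c1 * s * q) ((c1 * s + s) * q) (c2 * s * q) ((c2 * s + s) * q) with hD₁
  have ok1 : D₁.ok := ⟨Nat.mul_le_mul_right _ (by omega), Nat.mul_le_mul_right _ (by omega)⟩
  have o1 := one_dim t s q c1 ht0
  have o2 := one_dim t s q c2 ht0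
  have sub1 : D₁.sub (blk (m ^ J * q) j₁) := by
    rw [hrs]
    exact ⟨o1.1, o1.2, o2.1, o2.2⟩
  have hgoal : (21 * C * (q * h)) * ((m : ℝ)) ^ i = 7 * C * (3 * (s * q * h)) := by
    rw [hs]; push_cast; ring
  rw [hgoal]
  have hsR : (1 : ℝ) ≤ s := by exact_mod_cast hs0
  have hqR : (0 : ℝ) < q := by exact_mod_cast hq
  have hqh : 0 < (q : ℝ) * h := mul_pos hqR hh
  have hsqh : (q : ℝ) * h ≤ s * q * h := by nlinarith
  have size1 : (D₁.rect h).size ≤ 3 * (s * q * h) := by
    simp only [hD₁, NBox.rect, Rect.size]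
    push_cast
    nlinarith
  rcases Nat.eq_zero_or_pos c2 with hc20 | hc2pos
  · -- c2 = 0
    have hE : eBox q (c1 * s) (c2 * s) s = ⟨(c1 * s - 1) * q, c1 * s * q, 0, q⟩ := by
      simp [eBox, hc20]
    rw [hE] at hag
    rcases Nat.eq_zero_or_pos c1 with hc10 | hc1pos
    · -- c1 = 0
      have hc1s : c1 * s = 0 := by rw [hc10, zero_mul]
      refine abs_osc h1 hF hN' hh D₁ ⟨(c1 * s - 1) * q, c1 * s * q, 0, q⟩ j₁ j₁ ok1 ?_ sub1 ?_ ?_
        (Or.inl rfl) size1 ?_ ?_ _ _ hag (hev U) (hev U')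
      · exact ⟨Nat.mul_le_mul_right _ (by omega), Nat.zero_le _⟩
      · rw [hrs]
        refine ⟨?_, ?_, ?_, ?_⟩
        · simp [blk, hj₁, hc10]
        · simp [blk, hc10]
        · simp [blk, hj₁, hc20]
        · simp only [blk, hj₁, hc20, Nat.zero_div, zero_add, one_mul]
          nlinarith [Nat.mul_pos ht0 hs0]
      · exact Or.inr (Or.inl (le_refl _))
      · simp only [NBox.rect, Rect.size, hc1s]
        push_cast
        nlinarith
      · apply dist_bd D₁ _ h hh 0 (s * q) 0 (s * q)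
        · simp [hD₁, hc10]
        · simp [hD₁, hc10]
        · simp [hD₁, hc20]
        · simp [hD₁, hc20]
        · positivity
        · simp only [hc1s]; push_cast; nlinarith
        · simp
        · nlinarith
        · nlinarith
    · -- c1 > 0
      obtain ⟨d, hd1, hd2, hd3, hd4⟩ := one_dim_prev t s q c1 ht0 hs0 hc1pos
      have hdB : d < B := lt_of_le_of_lt hd1 hj1
      obtain ⟨e, he⟩ : ∃ e, c1 * s = e + 1 := ⟨c1 * s - 1, by
        have := Nat.mul_pos hc1pos hs0
        omega⟩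
      have hcR : (c1 : ℝ) * s = e + 1 := by exact_mod_cast he
      refine abs_osc h1 hF hN' hh D₁ ⟨(c1 * s - 1) * q, c1 * s * q, 0, q⟩ j₁
        (⟨d, hdB⟩, ⟨c2 / t, hj2⟩) ok1 ?_ sub1 ?_ ?_ ?_ size1 ?_ ?_ _ _ hag (hev U) (hev U')
      · exact ⟨Nat.mul_le_mul_right _ (by omega), Nat.zero_le _⟩
      · rw [hrs]
        refine ⟨hd2, hd3, ?_, ?_⟩
        · simp [blk, hc20]
        · simp only [blk, hc20, Nat.zero_div, zero_add, one_mul]
          nlinarith [Nat.mul_pos ht0 hs0]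
      · exact Or.inr (Or.inl (le_refl _))
      · rcases hd4 with hd4 | ⟨hd4, hd5⟩
        · left
          rw [hj₁]
          simp [hd4]
        · right
          refine ⟨⟨((c1 * s * q : ℕ) : ℝ) * h, ((0 : ℕ) : ℝ) * h⟩, ?_, ?_, ?_, ?_⟩
          · apply mem_bd _ _ hh
            · simp [hD₁]
            · simp only [hD₁]; exact Nat.mul_le_mul_right _ (by omega)
            · simp [hD₁, hc20]
            · simp [hD₁]
            · simp [hD₁]
          · apply mem_bd _ _ hh
            · exact Nat.mul_le_mul_right _ (by omega)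
            · exact le_refl _
            · exact le_refl _
            · exact Nat.zero_le _
            · exact Or.inr (Or.inl rfl)
          · rw [hrs]
            apply mem_bd _ _ hh
            · exact o1.1
            · refine le_trans ?_ o1.2
              exact Nat.mul_le_mul_right _ (by omega)
            · simp [blk, hj₁, hc20]
            · exact Nat.zero_le _
            · right; right; left
              simp [blk, hj₁, hc20]
          · rw [hrs]
            apply mem_bd _ _ hh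
            · refine hd2.trans ?_
              exact Nat.mul_le_mul_right _ (by omega)
            · exact hd3
            · simp [blk, hc20]
            · exact Nat.zero_le _
            · right; left
              exact hd5
      · simp only [NBox.rect, Rect.size, he]
        push_cast [Nat.add_sub_cancel]
        nlinarith
      · apply dist_bd D₁ _ h hh (e * q) ((e + 1 + s) * q) 0 (s * q)
        · simp only [hD₁, he]; push_cast; nlinarith
        · simp only [hD₁, he]; push_cast; nlinarith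
        · simp [hD₁, hc20]
        · simp [hD₁, hc20]
        · simp only [he]; push_cast [Nat.add_sub_cancel]; exact le_refl _
        · simp only [he]; push_cast; nlinarith
        · simp
        · nlinarith
        · nlinarith
  · -- c2 > 0
    have hc2s : 0 < c2 * s := Nat.mul_pos hc2pos hs0
    have hE : eBox q (c1 * s) (c2 * s) s
        = ⟨c1 * s * q, (c1 * s + s) * q, (c2 * s - 1) * q, c2 * s * q⟩ := by
      rw [eBox, if_neg (by omega)]
    rw [hE] at hag
    obtain ⟨d, hd1, hd2, hd3, hd4⟩ := one_dim_prev t s q c2 ht0 hs0 hc2pos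
    have hdB : d < B := lt_of_le_of_lt hd1 hj2
    obtain ⟨e, he⟩ : ∃ e, c2 * s = e + 1 := ⟨c2 * s - 1, by omega⟩
    have hcR : (c2 : ℝ) * s = e + 1 := by exact_mod_cast he
    refine abs_osc h1 hF hN' hh D₁ ⟨c1 * s * q, (c1 * s + s) * q, (c2 * s - 1) * q, c2 * s * q⟩ j₁
      (⟨c1 / t, hj1⟩, ⟨d, hdB⟩) ok1 ?_ sub1 ?_ ?_ ?_ size1 ?_ ?_ _ _ hag (hev U) (hev U')
    · exact ⟨Nat.mul_le_mul_right _ (by omega), Nat.mul_le_mul_right _ (by omega)⟩
    · rw [hrs]
      exact ⟨o1.1, o1.2, hd2, hd3⟩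
    · exact Or.inr (Or.inr (Or.inr (le_refl _)))
    · rcases hd4 with hd4 | ⟨hd4, hd5⟩
      · left
        rw [hj₁]
        simp [hd4]
      · right
        refine ⟨⟨((c1 * s * q : ℕ) : ℝ) * h, ((c2 * s * q : ℕ) : ℝ) * h⟩, ?_, ?_, ?_, ?_⟩
        · apply mem_bd _ _ hh
          · exact le_refl _
          · exact Nat.mul_le_mul_right _ (by omega)
          · exact le_refl _
          · exact Nat.mul_le_mul_right _ (by omega)
          · exact Or.inl rfl
        · apply mem_bd _ _ hh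
          · exact le_refl _
          · exact Nat.mul_le_mul_right _ (by omega)
          · exact Nat.mul_le_mul_right _ (by omega)
          · exact le_refl _
          · exact Or.inl rfl
        · rw [hrs]
          apply mem_bd _ _ hh
          · exact o1.1
          · refine le_trans ?_ o1.2
            exact Nat.mul_le_mul_right _ (by omega)
          · exact o2.1
          · refine le_trans ?_ o2.2
            exact Nat.mul_le_mul_right _ (by omega)
          · right; right; left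
            simp only [blk, hj₁]
            rw [hd5, hd4]
        · rw [hrs]
          apply mem_bd _ _ hh
          · exact o1.1
          · refine le_trans ?_ o1.2
            exact Nat.mul_le_mul_right _ (by omega)
          · refine hd2.trans ?_
            exact Nat.mul_le_mul_right _ (by omega)
          · exact hd3
          · right; right; right
            exact hd5
    · simp only [NBox.rect, Rect.size, he]
      push_cast [Nat.add_sub_cancel]
      nlinarith
    · apply dist_bd D₁ _ h hh (c1 * s * q) ((c1 * s + s) * q) (e * q) ((e + 1 + s) * q)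
      · simp only [hD₁]; push_cast; exact le_refl _
      · simp only [hD₁]; push_cast; exact le_refl _
      · simp only [hD₁, he]; push_cast; nlinarith
      · simp only [hD₁, he]; push_cast; exact le_refl _
      · push_cast; exact le_refl _
      · push_cast; exact le_refl _
      · simp only [he]; push_cast [Nat.add_sub_cancel]; exact le_refl _
      · simp only [he]; push_cast; nlinarith
      · have : ((((c1 : ℝ) * s + s) * q - (c1 : ℝ) * s * q) + (((e : ℝ) + 1 + s) * q - e * q)) * h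
            = 2 * (s * q * h) + q * h := by ring
        rw [this]
        linarith

end Pool.Agent.Helper77.Matching
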